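import Pool.Agent.TH774.TD.Add

set_option autoImplicit false

/-!
Turing determinacy implies that every additive map on the bounded real sequences (or bounded
sequences in a real normed space) which vanishes on the null sequences is zero, whatever the target
group, as long as its underlying set injects into the reals. Stated as an explicit reduction to the
determinacy of Turing invariant sets.
-/

namespace Pool.Agent.Results.MP_917879_lc.AdditiveModNull

open Pool.Agent.H685R3 Pool.Agent.TH774.TD Filter Topology

/-- `x` and `y` have the same Turing degree (Mathlib's Turing reducibility, for characteristic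
functions). -/
def SameDegree (x y : ℕ → Bool) : Prop :=
  TuringReducible (charFn x) (charFn y) ∧ TuringReducible (charFn y) (charFn x)

/-- The sequence `v` is bounded. -/
def Bdd {E : Type*} [NormedAddCommGroup E] (v : ℕ → E) : Prop := ∃ C : ℝ, ∀ n, ‖v n‖ ≤ C

/-- There is a Borel map `ρ` from the Cantor space to the sequences in the unit interval, sending
Turing equivalent reals to sequences with difference tending to zero, such that: for every map `φ`
from sequences in a normed space `E` to an additive group `H` (with an injection `κ` of `H` into the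
Cantor space) which is additive on bounded sequences and zero on null sequences, the sets
`{x | κ (φ (ρ x • v)) i = true}` are Turing invariant for all bounded `v`, and if all of them are
determined, then `φ` is zero on the bounded sequences. -/
theorem result :
    ∃ ρ : (ℕ → Bool) → ℕ → ℝ, Measurable ρ ∧ (∀ x n, ρ x n ∈ Set.Icc (0 : ℝ) 1) ∧
      (∀ x y, SameDegree x y → Tendsto (fun n => ρ x n - ρ y n) atTop (𝓝 0)) ∧
      ∀ (E : Type*) [NormedAddCommGroup E] [NormedSpace ℝ E] (H : Type*) [AddGroup H]
        (κ : H → ℕ → Bool), Function.Injective κ → ∀ φ : (ℕ → E) → H,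
        (∀ u v, Bdd u → Bdd v → φ (u + v) = φ u + φ v) →
        (∀ u, Tendsto u atTop (𝓝 0) → φ u = 0) →
        (∀ v, Bdd v → ∀ i, TuringInvariant {x | κ (φ fun n => ρ x n • v n) i = true}) ∧
        ((∀ v, Bdd v → ∀ i, Determined {x | κ (φ fun n => ρ x n • v n) i = true}) →
          ∀ v, Bdd v → φ v = 0) := by
  refine ⟨rho, measurable_rho, fun x n => wv_mem _, fun x y h => rho_close h.1 h.2,
    fun E _ _ H _ κ hκ φ hadd hnull => ?_⟩
  -- bounded weights times bounded sequences
  have hb : ∀ (w : ℕ → ℝ) (v : ℕ → E), (∀ n, |w n| ≤ 1) → Bdd v → Bdd fun n => w n • v n := by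
    rintro w v hw ⟨C, hC⟩
    refine ⟨C, fun n => ?_⟩
    rw [norm_smul, Real.norm_eq_abs]
    have h1 := hw n
    have h2 := hC n
    have h3 := norm_nonneg (v n)
    nlinarith [abs_nonneg (w n)]
  have hn : ∀ (w : ℕ → ℝ) (v : ℕ → E), Tendsto w atTop (𝓝 0) → Bdd v →
      Tendsto (fun n => w n • v n) atTop (𝓝 0) := by
    rintro w v hw ⟨C, hC⟩
    have h1 : Tendsto (fun n => |w n| * C) atTop (𝓝 0) := by
      simpa using (hw.abs).mul_const C
    refine squeeze_zero_norm (fun n => ?_) h1
    rw [norm_smul, Real.norm_eq_abs]
    exact mul_le_mul_of_nonneg_left (hC n) (abs_nonneg _)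
  have hnb : ∀ u : ℕ → E, Tendsto u atTop (𝓝 0) → Bdd u := by
    intro u hu
    obtain ⟨C, hC⟩ := (Metric.isBounded_range_of_tendsto u hu).exists_norm_le
    exact ⟨C, fun n => hC _ ⟨n, rfl⟩⟩
  -- null perturbations
  have key : ∀ a b : ℕ → E, Bdd b → Tendsto (fun n => a n - b n) atTop (𝓝 0) → φ a = φ b := by
    intro a b hb' h
    have h1 : a = (fun n => a n - b n) + b := by
      funext n
      simp
    rw [h1, hadd _ _ (hnb _ h) hb', hnull _ h, zero_add]
  have hr : ∀ x n, |rho x n| ≤ 1 := fun x n => by
    have h1 := wv_mem (sq x n)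
    rw [abs_le]
    exact ⟨by have := h1.1; unfold rho; linarith, h1.2⟩
  have hinv : ∀ v, Bdd v → ∀ x y, TuringReducible (charFn x) (charFn y) →
      TuringReducible (charFn y) (charFn x) →
      φ (fun n => rho x n • v n) = φ fun n => rho y n • v n := by
    intro v hv x y h1 h2
    refine key _ _ (hb _ _ (hr y) hv) ?_
    refine (hn _ v (rho_close h1 h2) hv).congr fun n => ?_
    rw [sub_smul]
  refine ⟨fun v hv i x y h1 h2 hx => ?_, fun hD v hv => ?_⟩
  · change κ _ i = true at hx
    change κ _ i = true
    rw [← hinv v hv x y h1 h2]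
    exact hx
  · obtain ⟨z, hz⟩ := const_on_cone (S := fun i => {x | κ (φ fun n => rho x n • v n) i = true})
      (fun i x y h1 h2 hx => by
        change κ _ i = true at hx
        change κ _ i = true
        rw [← hinv v hv x y h1 h2]
        exact hx) (fun i => hD v hv i)
    have hconst : ∀ y, Pool.Agent.Helper227.TLe z y →
        φ (fun n => rho y n • v n) = φ fun n => rho z n • v n := by
      intro y hy
      refine hκ (funext fun i => ?_)
      rcases hz i with h | h
      · have h1 : κ (φ fun n => rho y n • v n) i = true := h y hy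
        have h2 : κ (φ fun n => rho z n • v n) i = true := h z (Pool.Agent.Helper227.TLe.refl z)
        rw [h1, h2]
      · have h1 : ¬ κ (φ fun n => rho y n • v n) i = true := h y hy
        have h2 : ¬ κ (φ fun n => rho z n • v n) i = true :=
          h z (Pool.Agent.Helper227.TLe.refl z)
        rw [Bool.not_eq_true] at h1 h2
        rw [h1, h2]
    obtain ⟨y₁, y₂, y₃, y₄, h1, h2, h3, h4, h5, h6⟩ := partitions z
    set r := φ fun n => rho z n • v n with hr'
    have e1 : r = r + r := by
      have h7 : φ (fun n => rho y₁ n • v n) =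
          φ ((fun n => rho y₂ n • v n) + fun n => rho y₃ n • v n) := by
        obtain ⟨C₂, hC₂⟩ := hb _ v (hr y₂) hv
        obtain ⟨C₃, hC₃⟩ := hb _ v (hr y₃) hv
        refine key _ _ ⟨C₂ + C₃, fun n => (norm_add_le _ _).trans (add_le_add (hC₂ n) (hC₃ n))⟩ ?_
        refine (hn _ v h5 hv).congr fun n => ?_
        simp only [Pi.add_apply]
        rw [sub_smul, add_smul]
      rw [hadd _ _ (hb _ v (hr y₂) hv) (hb _ v (hr y₃) hv), hconst _ h1, hconst _ h2,
        hconst _ h3] at h7
      exact h7
    have e2 : φ v = r + r := by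
      have h7 : φ v = φ ((fun n => rho y₁ n • v n) + fun n => rho y₄ n • v n) := by
        obtain ⟨C₂, hC₂⟩ := hb _ v (hr y₁) hv
        obtain ⟨C₃, hC₃⟩ := hb _ v (hr y₄) hv
        refine key _ _ ⟨C₂ + C₃, fun n => (norm_add_le _ _).trans (add_le_add (hC₂ n) (hC₃ n))⟩ ?_
        refine (hn _ v h6 hv).congr fun n => ?_
        simp only [Pi.add_apply]
        rw [sub_smul, add_smul, one_smul]
      rw [hadd _ _ (hb _ v (hr y₁) hv) (hb _ v (hr y₄) hv), hconst _ h1, hconst _ h4] at h7
      exact h7
    have e3 : r = 0 := by
      have h7 : r + 0 = r + r := by rw [add_zero]; exact e1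
      exact (add_left_cancel h7).symm
    rw [e2, e3, add_zero]

end Pool.Agent.Results.MP_917879_lc.AdditiveModNull
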