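import Pool.Agent.TH774.TD.Add

set_option autoImplicit false

/-!
Turing determinacy implies that every real valued invariant of complex sequences modulo null
sequences is constant on the whole circle orbit of some unimodular sequence: in particular there is
no linear ordering of the bounded sequences modulo the null sequences, no system of representatives
for them, and no choice of one class out of each pair `{x, -x}`. Stated as an explicit reduction to
the determinacy of Turing invariant sets.
-/

namespace Pool.Agent.Results.MP_917879_lc.CircleOrbit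

open Pool.Agent.H685R3 Pool.Agent.TH774.TD Filter Topology

/-- `x` and `y` have the same Turing degree (Mathlib's Turing reducibility, for characteristic
functions). -/
def SameDegree (x y : ℕ → Bool) : Prop :=
  TuringReducible (charFn x) (charFn y) ∧ TuringReducible (charFn y) (charFn x)

/-- The unimodular sequence attached to a real. -/
noncomputable def uu (x : ℕ → Bool) (m : ℕ) : ℂ := Complex.exp (Complex.I * (sq x m : ℝ))

theorem norm_uu (x : ℕ → Bool) (m : ℕ) : ‖uu x m‖ = 1 := by
  rw [uu, mul_comm]
  exact Complex.norm_exp_ofReal_mul_I _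

theorem measurable_uu : Measurable uu := by
  refine measurable_pi_lambda _ fun m => ?_
  have h1 : Continuous fun t : ℝ => Complex.exp (Complex.I * (t : ℝ)) := by fun_prop
  exact h1.measurable.comp (measurable_sq m)

theorem exp_close {a b : ℕ → ℝ} (h : Tendsto (fun m => a m - b m) atTop (𝓝 0)) :
    Tendsto (fun m => Complex.exp (Complex.I * (a m : ℝ)) - Complex.exp (Complex.I * (b m : ℝ)))
      atTop (𝓝 0) := by
  have h1 : Tendsto (fun m => |a m - b m|) atTop (𝓝 0) := by
    simpa using h.abs
  refine squeeze_zero_norm (fun m => ?_) h1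
  have h2 : Complex.exp (Complex.I * (a m : ℝ)) - Complex.exp (Complex.I * (b m : ℝ)) =
      Complex.exp (Complex.I * (b m : ℝ)) * (Complex.exp (Complex.I * ((a m - b m : ℝ) : ℂ)) - 1) := by
    rw [mul_sub, ← Complex.exp_add]
    congr 2
    · push_cast
      ring
    · ring
  rw [h2, norm_mul]
  have h3 : ‖Complex.exp (Complex.I * (b m : ℝ))‖ = 1 := by
    rw [mul_comm]
    exact Complex.norm_exp_ofReal_mul_I _
  rw [h3, one_mul]
  exact Real.norm_exp_I_mul_ofReal_sub_one_le

/-- There is a Borel map `u` from the Cantor space to the unimodular complex sequences, sending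
Turing equivalent reals to sequences with difference tending to zero, such that: for every map `F`
from the complex sequences to the Cantor space which does not change under null perturbations of
unimodular sequences, the sets `{x | F (u x) i = true}` are Turing invariant, and if all of them are
determined, then there is a unimodular sequence `w` such that `F (λ w) = F w` for every complex
number `λ` of modulus one. -/
theorem result :
    ∃ u : (ℕ → Bool) → ℕ → ℂ, Measurable u ∧ (∀ x n, ‖u x n‖ = 1) ∧
      (∀ x y, SameDegree x y → Tendsto (fun n => u x n - u y n) atTop (𝓝 0)) ∧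
      ∀ F : (ℕ → ℂ) → ℕ → Bool,
        (∀ v w : ℕ → ℂ, (∀ n, ‖v n‖ = 1) → (∀ n, ‖w n‖ = 1) →
          Tendsto (fun n => v n - w n) atTop (𝓝 0) → F v = F w) →
        (∀ i, TuringInvariant {x | F (u x) i = true}) ∧
        ((∀ i, Determined {x | F (u x) i = true}) →
          ∃ w : ℕ → ℂ, (∀ n, ‖w n‖ = 1) ∧
            ∀ c : ℂ, ‖c‖ = 1 → F (fun n => c * w n) = F w) := by
  have hclose : ∀ x y, SameDegree x y → Tendsto (fun n => uu x n - uu y n) atTop (𝓝 0) :=
    fun x y h => exp_close (sq_close h.1 h.2)
  refine ⟨uu, measurable_uu, norm_uu, hclose, fun F hF => ?_⟩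
  have hinv : ∀ i, TuringInvariant {x | F (uu x) i = true} := by
    intro i x y h1 h2 hx
    change F (uu x) i = true at hx
    change F (uu y) i = true
    rw [← hF _ _ (norm_uu x) (norm_uu y) (hclose x y ⟨h1, h2⟩)]
    exact hx
  refine ⟨hinv, fun hD => ?_⟩
  obtain ⟨z, hz⟩ := const_on_cone hinv hD
  have hconst : ∀ y, Pool.Agent.Helper227.TLe z y → F (uu y) = F (uu z) := by
    intro y hy
    funext i
    rcases hz i with h | h
    · have h1 : F (uu y) i = true := h y hy
      have h2 : F (uu z) i = true := h z (Pool.Agent.Helper227.TLe.refl z)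
      rw [h1, h2]
    · have h1 : ¬ F (uu y) i = true := h y hy
      have h2 : ¬ F (uu z) i = true := h z (Pool.Agent.Helper227.TLe.refl z)
      rw [Bool.not_eq_true] at h1 h2
      rw [h1, h2]
  obtain ⟨s, hs0, hs, hw⟩ := walk_sq z
  have hns : ∀ t : ℝ, ‖Complex.exp (Complex.I * (t : ℝ))‖ = 1 := fun t => by
    rw [mul_comm]
    exact Complex.norm_exp_ofReal_mul_I _
  have hval : ∀ θ : ℝ → ℝ, Nice θ →
      F (fun m => Complex.exp (Complex.I * (θ (s m) : ℝ))) = F (uu z) := by
    intro θ hθ
    obtain ⟨y, hy, hy'⟩ := hw θ hθ
    rw [← hconst y hy]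
    refine (hF _ _ (norm_uu y) (fun n => hns _) (exp_close hy')).symm
  refine ⟨fun m => Complex.exp (Complex.I * (s m : ℝ)), fun n => hns _, fun c hc => ?_⟩
  rw [hval _ nice_id]
  -- the argument of `c`
  have harg := Complex.arg_mem_Ioc c
  set t : ℝ := 2 * Real.pi - Complex.arg c with ht
  have ht0 : 0 ≤ t := by
    have := harg.2
    have := Real.pi_pos
    linarith
  have hct : Complex.exp (Complex.I * ((-t : ℝ) : ℂ)) = c := by
    have h1 : Complex.I * ((-t : ℝ) : ℂ) = (Complex.arg c : ℂ) * Complex.I - 2 * Real.pi * Complex.I := by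
      rw [ht]
      push_cast
      ring
    rw [h1, Complex.exp_sub, Complex.exp_two_pi_mul_I, div_one]
    have h2 := Complex.norm_mul_exp_arg_mul_I c
    rw [hc] at h2
    simpa using h2
  rw [← hval _ (nice_shift ht0)]
  refine hF _ _ (fun n => by rw [norm_mul, hc, hns, mul_one]) (fun n => hns _) ?_
  refine Tendsto.congr' ?_ tendsto_const_nhds
  filter_upwards [hs.eventually_ge_atTop t] with m hm
  rw [max_eq_left (by linarith)]
  have h1 : Complex.exp (Complex.I * ((s m - t : ℝ) : ℂ)) =
      c * Complex.exp (Complex.I * (s m : ℝ)) := by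
    rw [← hct, ← Complex.exp_add]
    congr 1
    push_cast
    ring
  rw [h1, sub_self]

end Pool.Agent.Results.MP_917879_lc.CircleOrbit
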