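import Pool.Agent.W885.TD.Main
import Pool.Agent.TH774.KP.Norm

set_option autoImplicit false

/-!
Turing determinacy answers Kaplansky's question on algebra norms: every homomorphism from an
algebra `C(K)` of continuous functions on a compact Hausdorff space into a normed algebra is
continuous, and every injective one is bounded below. Stated as an explicit reduction: to a
homomorphism and a sequence of open sets of `K` we attach countably many Turing invariant sets of
reals, and if they are all determined, then the homomorphism is continuous.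
-/

namespace Pool.Agent.Results.MP_917879_lc.KaplanskyContinuity

open Pool.Agent.H685R3 Pool.Agent.TH774.KP Filter

/-- `x` and `y` have the same Turing degree (Mathlib's Turing reducibility, for characteristic
functions). -/
def SameDegree (x y : ℕ → Bool) : Prop :=
  TuringReducible (charFn x) (charFn y) ∧ TuringReducible (charFn y) (charFn x)

/-- The set of all `x` such that for some `x'` of the same Turing degree the set `V` contains
infinitely many members of the sequence `Ψ x'`. -/
def Saturation (V : Set (ℕ → Bool)) (Ψ : (ℕ → Bool) → ℕ → ℕ → Bool) : Set (ℕ → Bool) :=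
  {x | ∃ x', SameDegree x' x ∧ ∃ᶠ n in atTop, Ψ x' n ∈ V}

variable {𝕜 K B : Type*} [RCLike 𝕜] [TopologicalSpace K] [CompactSpace K] [NonUnitalNormedRing B]

/-- `θ` is linear and multiplicative. -/
structure IsHom [NormedSpace 𝕜 B] (θ : C(K, 𝕜) → B) : Prop where
  add : ∀ f g, θ (f + g) = θ f + θ g
  smul : ∀ (c : 𝕜) f, θ (c • f) = c • θ f
  mul : ∀ f g, θ (f * g) = θ f * θ g

/-- The set of all `x` such that `θ` is unbounded on the set of all functions of norm at most one
which vanish outside the union of the sets `W n` with `x n = 1`. -/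
def Unbounded (θ : C(K, 𝕜) → B) (W : ℕ → Set K) : Set (ℕ → Bool) :=
  {x | ∀ M : ℝ, ∃ f : C(K, 𝕜), ‖f‖ ≤ 1 ∧ (∀ t, f t ≠ 0 → ∃ n, x n = true ∧ t ∈ W n) ∧ M < ‖θ f‖}

/-- The saturations under the maps `Φ σ` of all sets `Unbounded θ W`, where the sets `W n` are
open, belong to the class `P`. -/
def AllSaturations (P : Set (ℕ → Bool) → Prop) (Φ : List Bool → (ℕ → Bool) → ℕ → ℕ → Bool)
    (θ : C(K, 𝕜) → B) : Prop :=
  ∀ W : ℕ → Set K, (∀ n, IsOpen (W n)) → ∀ σ, P (Saturation (Unbounded θ W) (Φ σ))

theorem mem_unbounded [NormedSpace 𝕜 B] (θ : C(K, 𝕜) →ₗ[𝕜] B) (W : ℕ → Set K)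
    (x : ℕ → Bool) : x ∈ Unbounded (fun f => θ f) W ↔ {n : ℕ | x n = true} ∉ JJ θ W := by
  constructor
  · rintro h ⟨M, hM⟩
    obtain ⟨f, h1, h2, h3⟩ := h M
    exact absurd (hM f h1 h2) (not_le.2 h3)
  · intro h M
    by_contra hc
    push Not at hc
    exact h ⟨M, fun f h1 h2 => hc f h1 h2⟩

/-- There are Borel maps `Φ σ` (one for every finite binary sequence `σ`) from the Cantor space to
sequences of points of the Cantor space such that for every multiplicative linear map `θ` from
`C(K, 𝕜)` (`K` compact Hausdorff, `𝕜` the real or the complex field) into a normed algebra over `𝕜`,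
complete or not, and every sequence of open sets `W n` of `K`, the saturations of the set
`Unbounded θ W` under the maps `Φ σ` are Turing invariant, and if all of them are determined, then
`θ` is continuous, and if moreover `θ` is injective, then it does not decrease the norm. -/
theorem result :
    ∃ Φ : List Bool → (ℕ → Bool) → ℕ → ℕ → Bool, (∀ σ, Measurable (Φ σ)) ∧
      ∀ (𝕜 : Type*) [RCLike 𝕜] (K : Type*) [TopologicalSpace K] [CompactSpace K] [T2Space K]
        (B : Type*) [NonUnitalNormedRing B] [NormedSpace 𝕜 B] (θ : C(K, 𝕜) → B), IsHom θ →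
        AllSaturations TuringInvariant Φ θ ∧ (AllSaturations Determined Φ θ →
          Continuous θ ∧ (Function.Injective θ → ∀ f, ‖f‖ ≤ ‖θ f‖)) := by
  refine ⟨Pool.Agent.W885.TD.cc, Pool.Agent.W885.TD.measurable_cc,
    fun 𝕜 _ K _ _ _ B _ _ θ₀ hθ₀ => ?_⟩
  obtain ⟨θ, rfl⟩ : ∃ θ : C(K, 𝕜) →ₗ[𝕜] B, θ₀ = fun f => θ f :=
    ⟨⟨⟨θ₀, hθ₀.add⟩, hθ₀.smul⟩, rfl⟩
  have hmul : ∀ f g, θ (f * g) = θ f * θ g := hθ₀.mul
  have key : ∀ (V : Set (ℕ → Bool)) (σ : List Bool), Saturation V (Pool.Agent.W885.TD.cc σ) =
      Pool.Agent.W885.TD.sat V (Pool.Agent.W885.TD.cc σ) := by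
    intro V σ
    ext x
    exact ⟨fun ⟨x', h, h'⟩ => ⟨x', h.1, h.2, h'⟩, fun ⟨x', h1, h2, h'⟩ => ⟨x', ⟨h1, h2⟩, h'⟩⟩
  refine ⟨fun W _ σ => ?_, fun hD => ?_⟩
  · rw [key]
    exact Pool.Agent.W885.TD.sat_invariant _ _
  · have hBd : Bd θ (fun _ => True) := by
      refine main θ hmul fun W hW => ?_
      have h1 : BaireMeasurableSet (Unbounded (fun f => θ f) W) := by
        refine Pool.Agent.W885.TD.baire_of_determined ?_ fun σ => ?_
        · intro a b ha hab M
          obtain ⟨f, h1, h2, h3⟩ := ha M
          refine ⟨f, h1, fun t ht => ?_, h3⟩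
          obtain ⟨n, h4, h5⟩ := h2 t ht
          exact ⟨n, hab n h4, h5⟩
        · rw [← key]
          exact hD W hW σ
      have h2 : {x : ℕ → Bool | {n : ℕ | x n = true} ∈ JJ θ W} =
          (Unbounded (fun f => θ f) W)ᶜ := by
        ext x
        rw [Set.mem_compl_iff, mem_unbounded, not_not]
        rfl
      rw [h2]
      exact h1.compl
    have hc := continuous_of_bd θ hBd
    exact ⟨hc, fun hinj f => norm_le_of_injective θ hmul hc hinj f⟩

end Pool.Agent.Results.MP_917879_lc.KaplanskyContinuity
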