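import Pool.Agent.TH774.TD.Slow

set_option autoImplicit false

/-!
Turing determinacy implies the Ramsey property, in a strong form, for every set of infinite subsets
of the natural numbers which is invariant under changes of bounded counting function. Stated as an
explicit reduction to the determinacy of one Turing invariant set.
-/

namespace Pool.Agent.Results.MP_917879_lc.RamseyBoundedCount

open Pool.Agent.H685R3 Pool.Agent.TH774.TD Filter Topology

/-- The number of elements of `A` below `m`. -/
noncomputable def count (A : Set ℕ) (m : ℕ) : ℕ := (A ∩ Set.Iio m).ncard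

/-- The counting functions of `A` and `B` have bounded difference. -/
def Near (A B : Set ℕ) : Prop := ∃ c, ∀ m, count A m ≤ count B m + c ∧ count B m ≤ count A m + c

/-- Any two elements `a < b` of `A` satisfy `h a < b`. -/
def Sparse (h : ℕ → ℕ) (A : Set ℕ) : Prop := ∀ a ∈ A, ∀ b ∈ A, a < b → h a < b

theorem count_range {s : ℕ → ℕ} (hs : StrictMono s) (m : ℕ) : count (Set.range s) m = lc s m := by
  have h1 : Set.range s ∩ Set.Iio m = s '' Set.Iio (lc s m) := by
    ext n
    constructor
    · rintro ⟨⟨k, rfl⟩, hk⟩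
      exact ⟨k, (lt_lc hs).2 hk, rfl⟩
    · rintro ⟨k, hk, rfl⟩
      exact ⟨⟨k, rfl⟩, (lt_lc hs).1 hk⟩
  rw [count, h1, Set.ncard_image_of_injective _ hs.injective]
  simp

theorem lc_le {s : ℕ → ℕ} (hs : StrictMono s) (m : ℕ) : lc s m ≤ m := by
  by_contra hc
  push Not at hc
  have h1 := (lt_lc hs).1 hc
  have h2 := hs.id_le m
  simp only [id] at h2
  omega

theorem near_of_eventually {s t : ℕ → ℕ} (hs : StrictMono s) (ht : StrictMono t)
    (h : ∀ᶠ m in atTop, lc s m ≤ lc t m + 1 ∧ lc t m ≤ lc s m + 1) :
    Near (Set.range s) (Set.range t) := by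
  obtain ⟨M, hM⟩ := eventually_atTop.1 h
  refine ⟨M + 1, fun m => ?_⟩
  rw [count_range hs, count_range ht]
  rcases le_or_gt M m with h1 | h1
  · have := hM m h1
    omega
  · have h2 := lc_le hs m
    have h3 := lc_le ht m
    omega

/-- There is a Borel map `Γ` from the Cantor space to the increasing sequences such that for every
set `V` of infinite sets of natural numbers which is invariant under `Near`, the set of all `x` for
which the range of `Γ x` is in `V` is Turing invariant, and if it is determined, then there is a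
function `h` such that all `h`-sparse infinite sets are in `V` or all of them are outside `V`. -/
theorem result :
    ∃ Γ : (ℕ → Bool) → ℕ → ℕ, Measurable Γ ∧ (∀ x, StrictMono (Γ x)) ∧
      ∀ V : Set (Set ℕ), (∀ A B, A.Infinite → B.Infinite → Near A B → A ∈ V → B ∈ V) →
        TuringInvariant {x | Set.range (Γ x) ∈ V} ∧
        (Determined {x | Set.range (Γ x) ∈ V} → ∃ h : ℕ → ℕ,
          (∀ A : Set ℕ, A.Infinite → Sparse h A → A ∈ V) ∨
          (∀ A : Set ℕ, A.Infinite → Sparse h A → A ∉ V)) := by
  refine ⟨g, measurable_pi_lambda _ measurable_g, strictMono_g, fun V hV => ?_⟩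
  have hinf : ∀ x, (Set.range (g x)).Infinite := fun x =>
    Set.infinite_range_of_injective (strictMono_g x).injective
  have hinv : TuringInvariant {x | Set.range (g x) ∈ V} := by
    intro x y h1 h2 hx
    refine hV _ _ (hinf x) (hinf y) (near_of_eventually (strictMono_g x) (strictMono_g y) ?_) hx
    exact (al_le_al h2).and (al_le_al h1)
  refine ⟨hinv, fun hD => ?_⟩
  obtain ⟨z, hz⟩ := const_on_cone (S := fun _ => {x | Set.range (g x) ∈ V}) (fun _ => hinv)
    fun _ => hD
  obtain ⟨h, hh⟩ := control_g z
  have key : ∀ A : Set ℕ, A.Infinite → Sparse h A → ∃ y, Pool.Agent.Helper227.TLe z y ∧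
      Near (Set.range (g y)) A ∧ Near A (Set.range (g y)) := by
    intro A hA hs
    have hn : StrictMono (Nat.nth (· ∈ A)) := Nat.nth_strictMono hA
    have hr : Set.range (Nat.nth (· ∈ A)) = A := Nat.range_nth_of_infinite hA
    obtain ⟨y, hy, hy'⟩ := hh _ hn fun k => hs _ (Nat.nth_mem_of_infinite hA k) _
      (Nat.nth_mem_of_infinite hA (k + 1)) (hn (Nat.lt_succ_self k))
    refine ⟨y, hy, ?_, ?_⟩
    · have h1 := near_of_eventually (strictMono_g y) hn hy'
      rwa [hr] at h1
    · have h1 := near_of_eventually hn (strictMono_g y) (hy'.mono fun m hm => ⟨hm.2, hm.1⟩)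
      rwa [hr] at h1
  refine ⟨h, ?_⟩
  rcases hz 0 with h1 | h1
  · left
    intro A hA hs
    obtain ⟨y, hy, h2, h3⟩ := key A hA hs
    exact hV _ _ (hinf y) hA h2 (h1 y hy)
  · right
    intro A hA hs hAV
    obtain ⟨y, hy, h2, h3⟩ := key A hA hs
    exact h1 y hy (hV _ _ hA (hinf y) h3 hAV)

end Pool.Agent.Results.MP_917879_lc.RamseyBoundedCount
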